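import Pool.Agent.helper48.PR.SpecL

/-!
# Project pr: module LGG
-/

set_option autoImplicit false

namespace Pool.Agent.PR

theorem LGG (h1 : LTRP_stmt) (h2 : LINF_stmt) (h3 : LCZ_stmt) : LGG_stmt := by
  intro n hn Λ _ hQ Q _ _ π f hf
  obtain ⟨π', g, ha, hb⟩ := h1 n hn Λ hQ Q π f
  have hg : ∀ q, (Set.range (g q)).Infinite := fun q =>
    h2 n q Λ (SLZ n) (f q) (g q) (fun m hm l => by
      obtain ⟨γ, _, h⟩ := ha m hm l
      exact ⟨γ, h q⟩) (hf q)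
  choose X Y s hXY hYX hXs using fun q : Nat.Primes => h3 n hn q (g q) (hg q)
  refine ⟨π', X, Y, s, fun q => ⟨hXY q, hYX q⟩, ?_, ?_⟩
  · intro m hm l
    obtain ⟨γ, e, h⟩ := ha m hm l
    refine ⟨γ, e, fun q => ?_⟩
    rw [← hXs q γ]
    exact h q
  · intro m hm γ
    obtain ⟨l, e, h⟩ := hb m hm γ
    refine ⟨l, e, fun q => ?_⟩
    rw [← hXs q γ]
    exact h q

end Pool.Agent.PR
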