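import Pool.Agent.helper48.PR.SpecL

/-!
# Project pr: module LSPAN
-/

set_option autoImplicit false

namespace Pool.Agent.PR

open Matrix

/-- A functional vanishing on the integral matrices `F l`, with a unit coefficient. -/
theorem LSPAN_fun {n q : ℕ} [Fact q.Prime] (S : Submodule ℚ_[q] (Matrix (Fin n) (Fin n) ℚ_[q]))
    (hS : S ≠ ⊤) : ∃ (c : Fin n → Fin n → ℤ_[q]) (i₀ j₀ : Fin n), c i₀ j₀ = 1 ∧
      ∀ M ∈ S, ∑ i, ∑ j, M i j * (c i j : ℚ_[q]) = 0 := by
  obtain ⟨φ, hφ0, hφ⟩ := Submodule.exists_le_ker_of_lt_top S (lt_top_iff_ne_top.2 hS)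
  have hexp : ∀ M : Matrix (Fin n) (Fin n) ℚ_[q],
      φ M = ∑ i, ∑ j, M i j * φ (Matrix.single i j 1) := by
    intro M
    conv_lhs => rw [Matrix.matrix_eq_sum_single M]
    rw [map_sum]
    refine Finset.sum_congr rfl fun i _ => ?_
    rw [map_sum]
    refine Finset.sum_congr rfl fun j _ => ?_
    have : Matrix.single i j (M i j) = M i j • Matrix.single i j (1 : ℚ_[q]) := by
      rw [Matrix.smul_single, smul_eq_mul, mul_one]
    rw [this, map_smul, smul_eq_mul]
  have hne : ∃ i j, φ (Matrix.single i j 1) ≠ 0 := by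
    by_contra h
    push Not at h
    apply hφ0
    ext M
    rw [hexp M]
    simp [h]
  obtain ⟨i₁, j₁, h11⟩ := hne
  obtain ⟨x, _, hx⟩ := Finset.exists_max_image (Finset.univ : Finset (Fin n × Fin n))
    (fun x => ‖φ (Matrix.single x.1 x.2 1)‖) ⟨(i₁, j₁), Finset.mem_univ _⟩
  set b : ℚ_[q] := φ (Matrix.single x.1 x.2 1) with hb
  have hb0 : b ≠ 0 := by
    have h1 := hx (i₁, j₁) (Finset.mem_univ _)
    have h2 : 0 < ‖φ (Matrix.single i₁ j₁ 1)‖ := norm_pos_iff.2 h11
    exact norm_pos_iff.1 (lt_of_lt_of_le h2 h1)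
  have hle : ∀ i j, ‖φ (Matrix.single i j 1) / b‖ ≤ 1 := by
    intro i j
    rw [norm_div]
    exact div_le_one_of_le₀ (hx (i, j) (Finset.mem_univ _)) (norm_nonneg _)
  refine ⟨fun i j => ⟨φ (Matrix.single i j 1) / b, hle i j⟩, x.1, x.2, ?_, ?_⟩
  · apply Subtype.ext
    exact div_self hb0
  · intro M hM
    have h1 : φ M = 0 := hφ hM
    rw [hexp M] at h1
    have h2 : ∑ i, ∑ j, M i j * (φ (Matrix.single i j 1) / b) =
        (∑ i, ∑ j, M i j * φ (Matrix.single i j 1)) / b := by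
      rw [Finset.sum_div]
      refine Finset.sum_congr rfl fun i _ => ?_
      rw [Finset.sum_div]
      refine Finset.sum_congr rfl fun j _ => ?_
      rw [mul_div_assoc]
    rw [h1, zero_div] at h2
    exact h2

theorem LSPAN (hK : LKEY_stmt) : LSPAN_stmt := by
  intro n hn Λ _ hQ f hf q
  by_contra hS
  obtain ⟨c, i₀, j₀, hc1, hc⟩ := LSPAN_fun _ hS
  have hq : (q : ℕ) ≠ 0 := q.2.ne_zero
  have hzero : ∀ l, ∑ i, ∑ j, (f q l : Matrix (Fin n) (Fin n) ℤ_[(q : ℕ)]) i j * c i j = 0 := by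
    intro l
    have h := hc (qM (f q l)) (Submodule.subset_span ⟨l, rfl⟩)
    have h2 : ((∑ i, ∑ j, (f q l : Matrix (Fin n) (Fin n) ℤ_[(q : ℕ)]) i j * c i j : ℤ_[(q : ℕ)]) :
        ℚ_[(q : ℕ)]) = 0 := by
      rw [← h, ← PadicInt.Coe.ringHom_apply, map_sum]
      refine Finset.sum_congr rfl fun i _ => ?_
      rw [map_sum]
      refine Finset.sum_congr rfl fun j _ => ?_
      rw [map_mul]
      rfl
    exact Subtype.ext h2
  have key : ∀ U : Matrix (Fin n) (Fin n) ℤ, U.det = 1 →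
      ((q : ℕ) : ℤ_[(q : ℕ)]) ∣ ∑ i, ∑ j, (U i j : ℤ_[(q : ℕ)]) * c i j := by
    intro U hU
    obtain ⟨l, hl⟩ := hK n hn Λ hQ f hf (fun q' => U.map (Int.castRingHom ℤ_[(q' : ℕ)]))
      (fun q' => by rw [← RingHom.mapMatrix_apply, ← RingHom.map_det, hU, map_one]) q hq
    have h1 := hl q
    have h2 : ∑ i, ∑ j, (U i j : ℤ_[(q : ℕ)]) * c i j =
        -∑ i, ∑ j, ((f q l : Matrix (Fin n) (Fin n) ℤ_[(q : ℕ)]) i j - (U i j : ℤ_[(q : ℕ)])) * c i j := by
      simp only [sub_mul, Finset.sum_sub_distrib]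
      rw [hzero l]
      ring
    rw [h2, dvd_neg]
    refine Finset.dvd_sum fun i _ => Finset.dvd_sum fun j _ => ?_
    exact Dvd.dvd.mul_right (h1 i j) _
  have hone : ((q : ℕ) : ℤ_[(q : ℕ)]) ∣ ∑ i, c i i := by
    have h := key 1 Matrix.det_one
    have h2 : ∑ i, ∑ j, (((1 : Matrix (Fin n) (Fin n) ℤ) i j : ℤ) : ℤ_[(q : ℕ)]) * c i j = ∑ i, c i i := by
      refine Finset.sum_congr rfl fun i _ => ?_
      rw [Finset.sum_eq_single i]
      · simp
      · intro j _ hj
        simp [Matrix.one_apply_ne hj.symm]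
      · simp
    rwa [h2] at h
  have hadd : ∀ A B : Matrix (Fin n) (Fin n) ℤ,
      ∑ i, ∑ j, (((A + B) i j : ℤ) : ℤ_[(q : ℕ)]) * c i j =
      (∑ i, ∑ j, ((A i j : ℤ) : ℤ_[(q : ℕ)]) * c i j) + ∑ i, ∑ j, ((B i j : ℤ) : ℤ_[(q : ℕ)]) * c i j := by
    intro A B
    rw [← Finset.sum_add_distrib]
    refine Finset.sum_congr rfl fun i _ => ?_
    rw [← Finset.sum_add_distrib]
    refine Finset.sum_congr rfl fun j _ => ?_
    rw [Matrix.add_apply]
    push_cast
    ring
  have hsingle : ∀ a b : Fin n,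
      ∑ i, ∑ j, ((Matrix.single a b (1 : ℤ) i j : ℤ) : ℤ_[(q : ℕ)]) * c i j = c a b := by
    intro a b
    rw [Finset.sum_eq_single a]
    · rw [Finset.sum_eq_single b]
      · simp
      · intro j _ hj
        rw [Matrix.single_apply_of_ne]
        · simp
        · intro h
          exact hj h.2.symm
      · simp
    · intro i _ hi
      apply Finset.sum_eq_zero
      intro j _
      rw [Matrix.single_apply_of_ne]
      · simp
      · intro h
        exact hi h.1.symm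
    · simp
  have hone' : ((q : ℕ) : ℤ_[(q : ℕ)]) ∣
      ∑ i, ∑ j, (((1 : Matrix (Fin n) (Fin n) ℤ) i j : ℤ) : ℤ_[(q : ℕ)]) * c i j :=
    key 1 Matrix.det_one
  have hoff : ∀ a b : Fin n, a ≠ b → ((q : ℕ) : ℤ_[(q : ℕ)]) ∣ c a b := by
    intro a b hab
    have h := key (1 + Matrix.single a b 1) (Matrix.det_transvection_of_ne a b hab 1)
    rw [hadd, hsingle] at h
    exact (dvd_add_right hone').1 h
  have hdiag : ∀ a : Fin n, ((q : ℕ) : ℤ_[(q : ℕ)]) ∣ c a a := by
    intro a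
    obtain ⟨b, hab⟩ : ∃ b : Fin n, a ≠ b := by
      by_cases h0 : (a : ℕ) = 0
      · exact ⟨⟨1, by omega⟩, fun h => by rw [h] at h0; simp at h0⟩
      · exact ⟨⟨0, by omega⟩, fun h => h0 (by rw [h])⟩
    have hdet : ((1 + Matrix.single a b (1 : ℤ)) * (1 + Matrix.single b a 1)).det = 1 := by
      rw [Matrix.det_mul]
      rw [show (1 + Matrix.single a b (1 : ℤ)).det = 1 from Matrix.det_transvection_of_ne a b hab 1,
        show (1 + Matrix.single b a (1 : ℤ)).det = 1 from Matrix.det_transvection_of_ne b a hab.symm 1,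
        one_mul]
    have hexp : (1 + Matrix.single a b (1 : ℤ)) * (1 + Matrix.single b a 1) =
        1 + (Matrix.single a b 1 + (Matrix.single b a 1 + Matrix.single a a 1)) := by
      rw [add_mul, one_mul, mul_add, mul_one, Matrix.single_mul_single_same, one_mul]
      abel
    have h := key _ hdet
    rw [hexp, hadd, hadd, hadd, hsingle, hsingle, hsingle] at h
    have h2 := (dvd_add_right hone').1 h
    have h3 := (dvd_add_right (hoff a b hab)).1 h2
    exact (dvd_add_right (hoff b a hab.symm)).1 h3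
  have hall : ((q : ℕ) : ℤ_[(q : ℕ)]) ∣ c i₀ j₀ := by
    by_cases h : i₀ = j₀
    · rw [h]
      exact hdiag j₀
    · exact hoff i₀ j₀ h
  rw [hc1] at hall
  exact PadicInt.prime_p.not_isUnit (isUnit_of_dvd_one hall)

end Pool.Agent.PR
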