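import Pool.Agent.helper5.PR.SpecS
import Pool.Agent.helper62.PR.LCSP

/-!
Project pr, module S-FINK: finite kernel.
-/

set_option autoImplicit false

namespace Pool.Agent.PR

open Matrix

theorem S_FINK_sep {Λ : Type} [Group Λ] (hRF : RF Λ) (F : Finset Λ) :
    ∃ M : FiniteIndexNormalSubgroup Λ, ∀ g ∈ F, g ≠ 1 → g ∉ M.toSubgroup := by
  classical
  induction F using Finset.induction_on with
  | empty => exact ⟨FiniteIndexNormalSubgroup.ofSubgroup ⊤, fun g hg => absurd hg (Finset.notMem_empty g)⟩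
  | insert a F ha ih =>
    obtain ⟨M, hM⟩ := ih
    by_cases h1 : a = 1
    · refine ⟨M, fun g hg hg1 => ?_⟩
      rw [Finset.mem_insert] at hg
      rcases hg with rfl | hg
      · exact absurd h1 hg1
      · exact hM g hg hg1
    · obtain ⟨H, hH, haH⟩ := hRF a h1
      have : H.FiniteIndex := ⟨hH⟩
      refine ⟨M ⊓ FiniteIndexNormalSubgroup.ofSubgroup H.normalCore, fun g hg hg1 hmem => ?_⟩
      have h2 : g ∈ M.toSubgroup ⊓ H.normalCore := hmem
      rw [Finset.mem_insert] at hg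
      rcases hg with rfl | hg
      · exact haH (H.normalCore_le h2.2)
      · exact hM g hg hg1 h2.1

theorem S_FINK_split (m : ℕ) (L : ℕ) : L ≠ 0 →
    ∃ k d : ℕ, L = k * d ∧ k.Coprime m ∧ ∀ q : ℕ, q.Prime → q ∣ d → q ∣ m := by
  induction L using Nat.strong_induction_on with
  | _ L ih =>
    intro hL
    by_cases hc : L.Coprime m
    · exact ⟨L, 1, by ring, hc, fun q hq hd => absurd (Nat.dvd_one.1 hd) hq.one_lt.ne'⟩
    · obtain ⟨p, hp, hpL, hpm⟩ := Nat.Prime.not_coprime_iff_dvd.1 hc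
      obtain ⟨L', rfl⟩ := hpL
      have hL' : L' ≠ 0 := fun h => hL (by rw [h, mul_zero])
      have hlt : L' < p * L' := by
        have := hp.two_le
        nlinarith [Nat.pos_of_ne_zero hL']
      obtain ⟨k, d, h1, h2, h3⟩ := ih L' hlt hL'
      refine ⟨k, p * d, by rw [h1]; ring, h2, fun q hq hd => ?_⟩
      rcases (Nat.Prime.dvd_mul hq).1 hd with h | h
      · rw [(Nat.prime_dvd_prime_iff_eq hq hp).1 h]
        exact hpm
      · exact h3 q hq h

theorem S_FINK_dvd (m : ℕ) (i : ℕ → ℕ) (d : ℕ) (hd : d ≠ 0)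
    (h1 : ∀ q : ℕ, q.Prime → q ∣ d → q ∣ m) (hm : m ≠ 0)
    (h2 : ∀ q : ℕ, q.Prime → q ∣ m → ¬ q ^ i q ∣ d) :
    d ∣ ∏ q ∈ m.primeFactors, q ^ (i q) := by
  have hD : ∏ q ∈ m.primeFactors, q ^ (i q) ≠ 0 := by
    rw [Finset.prod_ne_zero_iff]
    intro q hq
    exact pow_ne_zero _ (Nat.prime_of_mem_primeFactors hq).ne_zero
  rw [← Nat.factorization_prime_le_iff_dvd hd hD]
  intro p hp
  by_cases hpd : p ∣ d
  · have hpm := h1 p hp hpd
    have h3 : d.factorization p < i p := by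
      by_contra hlt
      exact h2 p hp hpm ((hp.pow_dvd_iff_le_factorization hd).2 (not_lt.1 hlt))
    have h4 : p ^ i p ∣ ∏ q ∈ m.primeFactors, q ^ (i q) :=
      Finset.dvd_prod_of_mem (fun q => q ^ i q) (Nat.mem_primeFactors.2 ⟨hp, hpm, hm⟩)
    have h5 := (hp.pow_dvd_iff_le_factorization hD).1 h4
    omega
  · rw [Nat.factorization_eq_zero_of_not_dvd hpd]
    exact Nat.zero_le _

theorem S_FINK_red {n : ℕ} (k : ℕ) (x : SLZ n) :
    Matrix.SpecialLinearGroup.map (n := Fin n) (Int.castRingHom (ZMod k)) x = 1 ↔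
      MC k (x : Matrix (Fin n) (Fin n) ℤ) 1 := by
  constructor
  · intro h i j
    have h5 := congrArg (fun x : Matrix.SpecialLinearGroup (Fin n) (ZMod k) =>
      (x : Matrix (Fin n) (Fin n) (ZMod k)) i j) h
    have h6 : ((((x : SLZ n) : Matrix (Fin n) (Fin n) ℤ) i j : ℤ) : ZMod k) =
      (1 : Matrix (Fin n) (Fin n) (ZMod k)) i j := h5
    have h7 : (k : ℤ) ∣ ((x : SLZ n) : Matrix (Fin n) (Fin n) ℤ) i j -
      (1 : Matrix (Fin n) (Fin n) ℤ) i j := by
      rw [← ZMod.intCast_zmod_eq_zero_iff_dvd]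
      push_cast
      rw [sub_eq_zero, h6, Matrix.one_apply, Matrix.one_apply]
      split_ifs <;> simp
    exact h7
  · intro h
    ext i j
    have h8 : (k : ℤ) ∣ _ := h i j
    rw [← ZMod.intCast_zmod_eq_zero_iff_dvd, Int.cast_sub, sub_eq_zero] at h8
    rw [Matrix.SpecialLinearGroup.map_apply_coe, RingHom.mapMatrix_apply, Matrix.map_apply,
      Matrix.SpecialLinearGroup.coe_one]
    rw [eq_intCast, h8]
    by_cases hij : i = j
    · subst hij; simp
    · rw [Matrix.one_apply_ne hij, Matrix.one_apply_ne hij]; simp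

theorem S_FINK_std {n : ℕ} {q : ℕ} [Fact q.Prime] (m : ℕ) (X Y : Matrix (Fin n) (Fin n) ℤ_[q])
    (hYX : Y * X = 1) (s : Bool) (γ : SLZ n) (h : MC m 1 (X * sdM s ℤ_[q] γ * Y)) :
    MC m (stdM ℤ_[q] γ) 1 := by
  have h3 := LCSP_symm m _ _ h
  have h4 := LCSP_mul m _ _ Y X h3
  have h5 : Y * (X * sdM s ℤ_[q] γ * Y) * X = sdM s ℤ_[q] γ := by
    rw [← mul_assoc, ← mul_assoc, hYX, one_mul, mul_assoc, hYX, mul_one]
  rw [h5, mul_one, hYX] at h4
  unfold sdM at h4
  by_cases hs : s = true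
  · rw [if_pos hs] at h4
    exact h4
  · rw [if_neg hs] at h4
    have h6 : MC m (stdM ℤ_[q] γ⁻¹) 1 := by
      intro i j
      have := h4 j i
      rw [duM, Matrix.transpose_apply] at this
      by_cases hij : i = j
      · subst hij; exact this
      · rw [Matrix.one_apply_ne hij]
        rw [Matrix.one_apply_ne (Ne.symm hij)] at this
        exact this
    have h7 := LCSP_mul m _ _ (stdM ℤ_[q] γ) 1 h6
    rw [stdM_mul_inv, mul_one, mul_one, mul_one] at h7
    exact LCSP_symm m _ _ h7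

theorem S_FINK_unit {q : ℕ} [hq : Fact q.Prime] (k : ℕ) (h : ¬ q ∣ k) (x : ℤ_[q]) :
    ((k : ℕ) : ℤ_[q]) ∣ x := by
  have h1 : IsUnit ((k : ℕ) : ℤ_[q]) := by
    rw [PadicInt.isUnit_iff]
    have h2 : ‖((k : ℕ) : ℤ_[q])‖ ≤ 1 := PadicInt.norm_le_one _
    have h3 : ¬ ‖((k : ℕ) : ℤ_[q])‖ < 1 := by
      intro h4
      have h5 : ‖((k : ℤ) : ℤ_[q])‖ < 1 := by exact_mod_cast h4
      rw [PadicInt.norm_int_lt_one_iff_dvd] at h5
      exact h (by exact_mod_cast h5)
    exact le_antisymm h2 (not_lt.1 h3)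
  exact h1.dvd

theorem S_FINK (hJNT : S_JNT_stmt) (hBND : S_BND_stmt) (hSAND : S_SAND_stmt) : S_FINK_stmt := by
  classical
  intro n hn Λ _ hFG hQ hRF m hm R hR hbad
  obtain ⟨S, X, Y, s, hXY, hA, -⟩ := hJNT n hn Λ hQ m hm R hR
  have hm0 : m ≠ 0 := by omega
  have hi : ∀ q : ℕ, ∃ i : ℕ, q.Prime → q ∣ m → ∀ M, ¬ q ^ i ∣ lev hn S M := by
    intro q
    by_cases hq : q.Prime ∧ q ∣ m
    · have h := hBND n hn Λ hFG hQ hRF m hm R hR q hq.1 (hbad q hq.1 hq.2) S
      unfold Unb at h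
      push Not at h
      obtain ⟨i, hi⟩ := h
      exact ⟨i, fun _ _ => hi⟩
    · exact ⟨0, fun h1 h2 => absurd ⟨h1, h2⟩ hq⟩
  choose i hi using hi
  obtain ⟨D, hDdef⟩ : ∃ D, D = ∏ q ∈ m.primeFactors, q ^ (i q) := ⟨_, rfl⟩
  have hD : D ≠ 0 := by
    rw [hDdef, Finset.prod_ne_zero_iff]
    intro q hq
    exact pow_ne_zero _ (Nat.prime_of_mem_primeFactors hq).ne_zero
  have : NeZero D := ⟨hD⟩
  -- the elements of the kernel
  have key : ∀ (M : FiniteIndexNormalSubgroup Λ) (k : ℕ), 1 ≤ k → k.Coprime m → ∀ l : Λ, R l = 1 →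
      ∃ γ : SLZ n, S.g M γ = (l : Λ ⧸ M.toSubgroup) ∧ MC k (γ : Matrix (Fin n) (Fin n) ℤ) 1 := by
    intro M k hk hkm l hl
    obtain ⟨γ, hγ, hγ2⟩ := hA l M k hk hkm
    refine ⟨γ, hγ, ?_⟩
    have hstd : ∀ q : Nat.Primes, MC k (stdM ℤ_[(q : ℕ)] γ) 1 := by
      intro q
      by_cases hqk : (q : ℕ) ∣ k
      · obtain ⟨C, hC, hC2⟩ := hγ2 q hqk
        have hC1 : C = 1 := by
          ext a b
          have h := hC a b
          rw [hl] at h
          apply Subtype.ext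
          rw [h]
          by_cases hab : a = b
          · subst hab
            simp [ratM]
          · simp [ratM, hab]
        rw [hC1] at hC2
        exact S_FINK_std k (X q) (Y q) (hXY q).2 (s q) γ hC2
      · intro a b
        exact S_FINK_unit k hqk _
    intro a b
    refine LCSP_int k _ fun q => ?_
    have := hstd q a b
    rw [stdM, Matrix.map_apply] at this
    rw [Int.cast_sub]
    by_cases hij : a = b
    · subst hij
      rw [Matrix.one_apply_eq] at this ⊢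
      simpa using this
    · rw [Matrix.one_apply_ne hij] at this ⊢
      simpa using this
  by_contra hfin
  have hinf : Infinite R.ker := not_finite_iff_infinite.1 hfin
  obtain ⟨F, hF⟩ := Infinite.exists_subset_card_eq R.ker
    (Nat.card (Matrix.SpecialLinearGroup (Fin n) (ZMod D)) + 1)
  obtain ⟨M, hM⟩ := S_FINK_sep hRF ((F ×ˢ F).image fun p => (p.1 : Λ) * (p.2 : Λ)⁻¹)
  have hlev : lev hn S M ≠ 0 := by
    have : Finite (Λ ⧸ M.toSubgroup) := inferInstance
    exact (orderOf_pos _).ne'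
  obtain ⟨k, d, hkd, hkm, hdm⟩ := S_FINK_split m (lev hn S M) hlev
  have hk0 : k ≠ 0 := fun h => hlev (by rw [hkd, h, zero_mul])
  have hd0 : d ≠ 0 := fun h => hlev (by rw [hkd, h, mul_zero])
  have hdD : d ∣ D := by
    rw [hDdef]
    refine S_FINK_dvd m i d hd0 hdm hm0 fun q hq hqm hdvd => ?_
    exact hi q hq hqm M (hdvd.trans ⟨k, by rw [hkd]; ring⟩)
  have hcop : k.Coprime d := by
    rw [Nat.coprime_iff_gcd_eq_one]
    by_contra hne
    obtain ⟨p, hp, hpd⟩ := Nat.exists_prime_and_dvd hne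
    have h1 : p ∣ k := hpd.trans (Nat.gcd_dvd_left k d)
    have h2 : p ∣ m := hdm p hp (hpd.trans (Nat.gcd_dvd_right k d))
    exact Nat.Prime.not_coprime_iff_dvd.2 ⟨p, hp, h1, h2⟩ hkm
  have hc : ∀ l : R.ker, ∃ γ : SLZ n, S.g M γ = ((l : Λ) : Λ ⧸ M.toSubgroup) ∧
      MC k (γ : Matrix (Fin n) (Fin n) ℤ) 1 := fun l => key M k (by omega) hkm l l.2
  choose c hc1 hc2 using hc
  have hinj : Set.InjOn (fun l : R.ker =>
      Matrix.SpecialLinearGroup.map (n := Fin n) (Int.castRingHom (ZMod D)) (c l)) (F : Set R.ker) := by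
    intro l hl l' hl' hll
    have h1 : MC D ((c l * (c l')⁻¹ : SLZ n) : Matrix (Fin n) (Fin n) ℤ) 1 := by
      rw [← S_FINK_red, map_mul, map_inv, mul_inv_eq_one]
      exact hll
    have h2 : MC k ((c l * (c l')⁻¹ : SLZ n) : Matrix (Fin n) (Fin n) ℤ) 1 := by
      rw [← S_FINK_red, map_mul, map_inv, (S_FINK_red k (c l)).2 (hc2 l),
        (S_FINK_red k (c l')).2 (hc2 l'), inv_one, mul_one]
    have h3 : MC (lev hn S M) ((c l * (c l')⁻¹ : SLZ n) : Matrix (Fin n) (Fin n) ℤ) 1 := by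
      intro a b
      have h4 : ((k * d : ℕ) : ℤ) ∣ ((c l * (c l')⁻¹ : SLZ n) : Matrix (Fin n) (Fin n) ℤ) a b -
          (1 : Matrix (Fin n) (Fin n) ℤ) a b := by
        rw [Nat.cast_mul]
        exact IsCoprime.mul_dvd (Nat.isCoprime_iff_coprime.2 hcop) (h2 a b)
          ((Int.natCast_dvd_natCast.2 hdD).trans (h1 a b))
      rw [hkd]
      exact h4
    have h5 : S.g M (c l * (c l')⁻¹) = 1 := (hSAND n hn (Λ ⧸ M.toSubgroup) (S.g M)).1 _ h3
    rw [map_mul, map_inv, mul_inv_eq_one, hc1, hc1] at h5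
    have h6 : (l : Λ) * (l' : Λ)⁻¹ ∈ M.toSubgroup := by
      rw [← QuotientGroup.eq_one_iff, QuotientGroup.mk_mul, QuotientGroup.mk_inv, h5,
        mul_inv_cancel]
    by_contra hne
    refine hM ((l : Λ) * (l' : Λ)⁻¹) ?_ ?_ h6
    · exact Finset.mem_image.2 ⟨(l, l'), Finset.mem_product.2 ⟨hl, hl'⟩, rfl⟩
    · intro h7
      rw [mul_inv_eq_one] at h7
      exact hne (Subtype.ext h7)
  have hcard := Finset.card_image_of_injOn hinj
  have hle : (F.image fun l : R.ker =>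
      Matrix.SpecialLinearGroup.map (n := Fin n) (Int.castRingHom (ZMod D)) (c l)).card ≤
      Nat.card (Matrix.SpecialLinearGroup (Fin n) (ZMod D)) := by
    have : Fintype (Matrix.SpecialLinearGroup (Fin n) (ZMod D)) := Fintype.ofFinite _
    rw [Nat.card_eq_fintype_card]
    exact Finset.card_le_univ _
  omega

end Pool.Agent.PR
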